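import Pool.Agent.Helper41.CanardOpen

set_option autoImplicit false

/-!
# Coexistence of the two types of grand canards is locally topologically generic

Idea of the proof.  In the two gaps between the components of the slow curve the fast variable
rotates with speed of order `1 / ε`.  Adding a small bump `s χ(y) g(x,y,ε)` supported in a gap to
`f` changes the phase accumulated in that gap by an amount of order `s / ε`, hence by more than a
full turn as soon as `ε` is small compared with `s`; so arbitrarily close to any system and for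
arbitrarily small `ε` both phases can be adjusted independently, and both grand canards exist, in a
robust way.  Baire category does the rest.
-/

namespace Pool.Agent.Results.MP_589d2d_an.GrandCanardsCoexist

open Set Filter Topology
open Pool.Agent.Helper41.Canard

/-- For every `δ > 0` there are segments `J_i^±` and a nonempty open set `U` of slow-fast systems on
the two-torus with simple unconnected slow curve, for all of which the segments are admissible (with
levels `δ`-close to the jump points), and a residual subset `G` of `U`, such that every system in `G`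
has both a grand canard of type `1 → 2` and one of type `2 → 1` for all `ε` in a sequence of
intervals accumulating at `0`. -/
theorem result (δ : ℝ) (hδ : 0 < δ) :
    ∃ (Jm Jp : Fin 2 → Segment) (U : Set SlowFast),
      IsOpen U ∧ U.Nonempty ∧
      (∀ F ∈ U, ∃ a b M, SimpleUnconnected F a b M ∧ Admissible F a b M δ Jm Jp) ∧
      ∃ G : Set U, G ∈ residual U ∧
        ∀ F ∈ G, ∃ l r : ℕ → ℝ, (∀ n, 0 < l n ∧ l n < r n) ∧ Tendsto r atTop (𝓝 0) ∧
          ∀ n, ∀ ε ∈ Ioo (l n) (r n),
            GrandCanard F.1 (Jm 0) (Jp 1) ε ∧ GrandCanard F.1 (Jm 1) (Jp 0) ε := by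
  have hπ := Real.pi_pos
  have hπ3 := Real.pi_gt_three
  have hrr : 0 < rr := by unfold rr; positivity
  obtain ⟨e, he, he', heδ⟩ : ∃ e : ℝ, 0 < e ∧ e ≤ Real.pi / 16 ∧ 4 * e ≤ δ := by
    refine ⟨min (Real.pi / 16) (δ / 4), by positivity, min_le_left _ _, ?_⟩
    have := min_le_right (Real.pi / 16) (δ / 4)
    linarith
  refine ⟨segM e, segP e, {F | Good e F}, isOpen_good e, ⟨model, good_model he he'⟩,
    fun F hF => good_structure he he' heδ hF, ?_⟩
  refine ⟨_, residual_coexistence (isOpen_good e)
    (fun F hF => (window_good he he' hF).1) (fun F hF => (window_good he he' hF).2)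
    (α₀ := Real.pi / 4 + 2 * e) (β₀ := 7 * Real.pi / 4 - 2 * e)
    (α₁ := 5 * Real.pi / 4 + 2 * e) (β₁ := 3 * Real.pi / 4 - 2 * e + 2 * Real.pi)
    (p₀ := -rr / 2) (p₁ := -rr / 2) (u₀ := 0) (v₀ := rr) (u₁ := 0) (v₁ := rr)
    hrr hrr (by linarith) (by linarith) (by linarith) (by linarith)
    (by linarith) (by linarith) (by linarith) (by linarith), ?_⟩
  rintro F ⟨l, r, h1, h2, h3⟩
  refine ⟨l, r, h1, h2, fun n ε hε => ?_⟩
  obtain ⟨hε0, ⟨x, k, hx1, hx2, hx3⟩, ⟨x', k', hx1', hx2', hx3'⟩⟩ := h3 n ε hε
  constructor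
  · refine grandCanard_of_solves F.1 hε0 (J := segM e 0) (J' := segP e 1)
      (β := 7 * Real.pi / 4 - 2 * e) ?_ ?_ rfl (x := x) hx2 ?_ (k := k) ?_
    · change Real.pi / 4 + 2 * e < 7 * Real.pi / 4 - 2 * e
      linarith
    · change 7 * Real.pi / 4 - 2 * e < Real.pi / 4 + 2 * e + 2 * Real.pi
      linarith
    · change x (Real.pi / 4 + 2 * e) ∈ Icc (-rr) 0
      rw [hx1]
      constructor <;> linarith
    · exact ⟨hx3.1.le, hx3.2.le⟩
  · refine grandCanard_of_solves F.1 hε0 (J := segM e 1) (J' := segP e 0)
      (β := 3 * Real.pi / 4 - 2 * e + 2 * Real.pi) ?_ ?_ ?_ (x := x') hx2' ?_ (k := k') ?_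
    · change 5 * Real.pi / 4 + 2 * e < 3 * Real.pi / 4 - 2 * e + 2 * Real.pi
      linarith
    · change 3 * Real.pi / 4 - 2 * e + 2 * Real.pi < 5 * Real.pi / 4 + 2 * e + 2 * Real.pi
      linarith
    · rw [circ_eq_iff]
      refine ⟨1, ?_⟩
      change 3 * Real.pi / 4 - 2 * e + 2 * Real.pi = 3 * Real.pi / 4 - 2 * e + _
      push_cast
      ring
    · change x' (5 * Real.pi / 4 + 2 * e) ∈ Icc (-rr) 0
      rw [hx1']
      constructor <;> linarith
    · exact ⟨hx3'.1.le, hx3'.2.le⟩

end Pool.Agent.Results.MP_589d2d_an.GrandCanardsCoexist
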